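import Pool.Agent.helper74.FD.SpecF

set_option autoImplicit false

/-!
# Project FD, row QUC: quantitative unique continuation, both signs
-/

open MeasureTheory Filter Set
open scoped ContDiff Topology ComplexConjugate

namespace Pool.Agent.FD

theorem QUC_smul (m : ℝ → ℂ) (c : ℝ) (s : ℝ) : fti (fun ξ => (c : ℂ) * m ξ) s = c * fti m s := by
  unfold fti
  rw [← integral_const_mul]
  congr 1
  funext ξ
  ring

theorem QUC_neg (m : ℝ → ℂ) (s : ℝ) : fti (fun ξ => m (-ξ)) s = fti m (-s) := by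
  unfold fti
  rw [← integral_neg_eq_self (fun ξ => m ξ * Complex.exp (((2 * Real.pi * (-s) * ξ : ℝ) : ℂ) * Complex.I))]
  congr 1
  funext ξ
  congr 3
  push_cast
  ring

theorem QUC_wneg (m : ℝ → ℂ) : ∫ ξ, ‖m (-ξ)‖ * (1 + |ξ|) = ∫ ξ, ‖m ξ‖ * (1 + |ξ|) := by
  rw [← integral_neg_eq_self (fun ξ => ‖m ξ‖ * (1 + |ξ|))]
  congr 1
  funext ξ
  rw [abs_neg]

/-- scaling of QUH -/
theorem QUC_half (ν L a η κ0 : ℝ) (h : ∀ (S : Set ℝ) (m : ℝ → ℂ), Por ν L S → Continuous m → HasCompactSupport m → (∀ ξ, m ξ ≠ 0 → ξ ∈ S) →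
    ∫ ξ, ‖m ξ‖ * (1 + |ξ|) ≤ 1 → ∫ s in (0 : ℝ)..a, ‖fti m s‖ ^ 2 ≤ κ0 → ∫ s in (0 : ℝ)..2, ‖fti m s‖ ^ 2 ≤ η)
    (S : Set ℝ) (m : ℝ → ℂ) (h1 : Por ν L S) (h2 : Continuous m) (h3 : HasCompactSupport m) (h4 : ∀ ξ, m ξ ≠ 0 → ξ ∈ S)
    (N : ℝ) (hN : 0 < N) (h5 : ∫ ξ, ‖m ξ‖ * (1 + |ξ|) = N) (h6 : ∫ s in (0 : ℝ)..a, ‖fti m s‖ ^ 2 ≤ κ0 * N ^ 2) :
    ∫ s in (0 : ℝ)..2, ‖fti m s‖ ^ 2 ≤ η * N ^ 2 := by
  have e0 : ∀ s, ‖fti (fun ξ => ((N⁻¹ : ℝ) : ℂ) * m ξ) s‖ ^ 2 = (N ^ 2)⁻¹ * ‖fti m s‖ ^ 2 := by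
    intro s
    rw [QUC_smul, norm_mul, Complex.norm_real, Real.norm_of_nonneg (by positivity), mul_pow, inv_pow]
  have e1 : ∀ b : ℝ, ∫ s in (0 : ℝ)..b, ‖fti (fun ξ => ((N⁻¹ : ℝ) : ℂ) * m ξ) s‖ ^ 2 = (N ^ 2)⁻¹ * ∫ s in (0 : ℝ)..b, ‖fti m s‖ ^ 2 := by
    intro b
    rw [← intervalIntegral.integral_const_mul]
    congr 1
    funext s
    exact e0 s
  have h7 := h S (fun ξ => ((N⁻¹ : ℝ) : ℂ) * m ξ) h1 (continuous_const.mul h2) (h3.mul_left) (fun ξ hξ => h4 ξ (right_ne_zero_of_mul hξ)) ?_ ?_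
  · rw [e1, inv_mul_le_iff₀ (by positivity)] at h7
    linarith
  · have e2 : ∀ ξ, ‖((N⁻¹ : ℝ) : ℂ) * m ξ‖ * (1 + |ξ|) = N⁻¹ * (‖m ξ‖ * (1 + |ξ|)) := by
      intro ξ
      rw [norm_mul, Complex.norm_real, Real.norm_of_nonneg (by positivity)]
      ring
    simp only [e2]
    rw [integral_const_mul, h5, inv_mul_cancel₀ hN.ne']
  · rw [e1, inv_mul_le_iff₀ (by positivity)]
    linarith

theorem QUC_proof (hQUH : QUH_stmt) (hFT0 : FT0_stmt) (hPRF : PRF_stmt) : QUC_stmt := by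
  intro ν L a η hν hν1 ha hη
  obtain ⟨κ0, hκ, hQ⟩ := hQUH ν L a (η / 2) hν hν1 ha (by positivity)
  refine ⟨4 / κ0, by positivity, fun S m h1 h2 h3 h4 => ?_⟩
  have hint : Integrable m := h2.integrable_of_hasCompactSupport h3
  obtain ⟨-, hc, -, hb⟩ := hFT0.1 m hint
  have hc2 : Continuous fun s => ‖fti m s‖ ^ 2 := hc.norm.pow 2
  set N : ℝ := ∫ ξ, ‖m ξ‖ * (1 + |ξ|) with hNdef
  have hint2 : Integrable (fun ξ => ‖m ξ‖ * (1 + |ξ|)) := by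
    refine Continuous.integrable_of_hasCompactSupport (by fun_prop) ?_
    exact h3.norm.mul_right
  have hN0 : 0 ≤ N := integral_nonneg fun ξ => by positivity
  have hmN : ∫ ξ, ‖m ξ‖ ≤ N := by
    refine integral_mono hint.norm hint2 fun ξ => ?_
    show ‖m ξ‖ ≤ ‖m ξ‖ * (1 + |ξ|)
    exact le_mul_of_one_le_right (norm_nonneg _) (by linarith [abs_nonneg ξ])
  have hbN : ∀ s, ‖fti m s‖ ^ 2 ≤ N ^ 2 := fun s => pow_le_pow_left₀ (norm_nonneg _) ((hb s).trans hmN) 2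
  -- the trivial bound
  have hJ : ∫ s in (-2 : ℝ)..2, ‖fti m s‖ ^ 2 ≤ 4 * N ^ 2 := by
    have : ∫ s in (-2 : ℝ)..2, ‖fti m s‖ ^ 2 ≤ ∫ s in (-2 : ℝ)..2, N ^ 2 :=
      intervalIntegral.integral_mono_on (by norm_num) (hc2.intervalIntegrable _ _) (by simp) fun s _ => hbN s
    rw [intervalIntegral.integral_const, smul_eq_mul] at this
    linarith
  have hI0 : 0 ≤ ∫ s in (-a)..a, ‖fti m s‖ ^ 2 := intervalIntegral.integral_nonneg (by linarith) fun s _ => by positivity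
  rcases hN0.eq_or_lt with hz | hpos
  · rw [← hz] at hJ ⊢
    have : 0 ≤ 4 / κ0 * ∫ s in (-a)..a, ‖fti m s‖ ^ 2 := by positivity
    nlinarith
  by_cases hcase : ∫ s in (-a)..a, ‖fti m s‖ ^ 2 ≤ κ0 * N ^ 2
  · have hsplit : ∀ b : ℝ, ∫ s in (-b)..b, ‖fti m s‖ ^ 2 = (∫ s in (-b)..0, ‖fti m s‖ ^ 2) + ∫ s in (0 : ℝ)..b, ‖fti m s‖ ^ 2 := fun b =>
      (intervalIntegral.integral_add_adjacent_intervals (hc2.intervalIntegrable _ _) (hc2.intervalIntegrable _ _)).symm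
    have hneg : ∀ b : ℝ, ∫ s in (0 : ℝ)..b, ‖fti (fun ξ => m (-ξ)) s‖ ^ 2 = ∫ s in (-b)..0, ‖fti m s‖ ^ 2 := by
      intro b
      have := intervalIntegral.integral_comp_neg (a := (0 : ℝ)) (b := b) (fun s => ‖fti m s‖ ^ 2)
      rw [neg_zero] at this
      rw [← this]
      congr 1
      funext s
      rw [QUC_neg]
    have p1 : 0 ≤ ∫ s in (-a)..0, ‖fti m s‖ ^ 2 := intervalIntegral.integral_nonneg (by linarith) fun s _ => by positivity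
    have p2 : 0 ≤ ∫ s in (0 : ℝ)..a, ‖fti m s‖ ^ 2 := intervalIntegral.integral_nonneg ha.le fun s _ => by positivity
    rw [hsplit a] at hcase
    have q1 := QUC_half ν L a (η / 2) κ0 hQ S m h1 h2 h3 h4 N hpos rfl (by linarith)
    have q2 := QUC_half ν L a (η / 2) κ0 hQ {y | -y ∈ S} (fun ξ => m (-ξ)) (hPRF.2.2.2.1 ν L S h1) (h2.comp continuous_neg)
      (h3.comp_homeomorph (Homeomorph.neg ℝ)) (fun ξ hξ => h4 _ hξ) N hpos (QUC_wneg m) (by rw [hneg]; linarith)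
    rw [hneg] at q2
    have e := hsplit 2
    rw [e]
    have : 0 ≤ 4 / κ0 * ∫ s in (-a)..a, ‖fti m s‖ ^ 2 := by positivity
    linarith
  · push Not at hcase
    have : 4 * N ^ 2 ≤ 4 / κ0 * ∫ s in (-a)..a, ‖fti m s‖ ^ 2 := by
      rw [div_mul_eq_mul_div, le_div_iff₀ hκ]
      nlinarith
    have : 0 ≤ η * N ^ 2 := by positivity
    linarith

end Pool.Agent.FD
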